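import Pool.Agent.Lib.MP_748296_nt.H5.Ode

/-!
# MP_748296_nt : module H2 (helper5)
-/

namespace Pool.Agent.Lib.MP_748296_nt.H5

open Finset Polynomial

variable {p : ℕ} [hp : Fact p.Prime]

lemma cast_ne (k : ℕ) (hk : k < p) (h0 : 0 < k) : (k : ZMod p) ≠ 0 := by
  rw [Ne, ZMod.natCast_eq_zero_iff]
  exact fun h => absurd (Nat.le_of_dvd h0 h) (by omega)

lemma fact_ne (k : ℕ) (hk : k < p) : ((k.factorial : ℕ) : ZMod p) ≠ 0 := by
  rw [Ne, ZMod.natCast_eq_zero_iff, hp.out.dvd_factorial]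
  omega

/-- `∏_{i<k} q i / (d^k k!^2)` -/
noncomputable def cf (q : ℕ → ZMod p) (d : ZMod p) (k : ℕ) : ZMod p :=
  (∏ i ∈ range k, q i) / (d ^ k * ((k.factorial : ℕ) : ZMod p) ^ 2)

lemma cf_zero (q : ℕ → ZMod p) (d : ZMod p) : cf q d 0 = 1 := by simp [cf]

lemma cf_mul (q : ℕ → ZMod p) (d : ZMod p) (hd : d ≠ 0) (k : ℕ) (hk : k < p) :
    cf q d k * (d ^ k * ((k.factorial : ℕ) : ZMod p) ^ 2) = ∏ i ∈ range k, q i := by
  rw [cf, div_mul_cancel₀]
  exact mul_ne_zero (pow_ne_zero _ hd) (pow_ne_zero _ (fact_ne k hk))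

lemma cf_succ (q : ℕ → ZMod p) (d : ZMod p) (hd : d ≠ 0) (k : ℕ) (hk : k + 1 < p) :
    d * ((k : ZMod p) + 1) ^ 2 * cf q d (k + 1) = q k * cf q d k := by
  have h1 : ((k : ZMod p) + 1) ≠ 0 := by exact_mod_cast cast_ne (k + 1) hk (by omega)
  have h2 := fact_ne k (show k < p by omega)
  rw [cf, cf, prod_range_succ, Nat.factorial_succ]
  push_cast
  field_simp
  ring

lemma cf_eq_zero (q : ℕ → ZMod p) (d : ZMod p) (k i : ℕ) (hi : i < k) (hq : q i = 0) :
    cf q d k = 0 := by
  rw [cf, prod_eq_zero (mem_range.mpr hi) hq, zero_div]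

/-- `(1/3)_k (2/3)_k / k!^2` -/
noncomputable def T (k : ℕ) : ZMod p :=
  cf (fun i => (3 * (i : ZMod p) + 1) * (3 * (i : ZMod p) + 2)) 9 k

lemma three_ne (h5 : 5 < p) : (3 : ZMod p) ≠ 0 := by
  exact_mod_cast cast_ne (p := p) 3 (by omega) (by omega)

lemma two_ne (h5 : 5 < p) : (2 : ZMod p) ≠ 0 := by
  exact_mod_cast cast_ne (p := p) 2 (by omega) (by omega)

lemma nine_ne (h5 : 5 < p) : (9 : ZMod p) ≠ 0 := by
  have : (9 : ZMod p) = 3 * 3 := by norm_num
  rw [this]; exact mul_ne_zero (three_ne h5) (three_ne h5)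

lemma eighteen_ne (h5 : 5 < p) : (18 : ZMod p) ≠ 0 := by
  have : (18 : ZMod p) = 2 * (3 * 3) := by norm_num
  rw [this]; exact mul_ne_zero (two_ne h5) (mul_ne_zero (three_ne h5) (three_ne h5))

/-- the solutions of the differential equation -/
lemma solve (h5 : 5 < p) (y : (ZMod p)[X]) (hy : LL y = 0) (j : ℕ) :
    ∀ k < p, y.coeff (j * p + k) = y.coeff (j * p) * T k := by
  intro k
  induction k with
  | zero => intro _; rw [add_zero, T, cf_zero, mul_one]
  | succ k ih =>
    intro hk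
    have h1 := ih (by omega)
    have h2 := coeff_LL y (j * p + k)
    rw [hy, coeff_zero, h1] at h2
    have hc : ((j * p + k : ℕ) : ZMod p) = (k : ZMod p) := by
      push_cast; simp
    rw [hc] at h2
    have h3 := cf_succ (fun i => (3 * (i : ZMod p) + 1) * (3 * (i : ZMod p) + 2)) 9 (nine_ne h5) k hk
    have h4 : ((k : ZMod p) + 1) ≠ 0 := by exact_mod_cast cast_ne (k + 1) hk (by omega)
    have h5' : 9 * ((k : ZMod p) + 1) ^ 2 ≠ 0 := mul_ne_zero (nine_ne h5) (pow_ne_zero _ h4)
    apply mul_left_cancel₀ h5'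
    rw [show j * p + (k + 1) = j * p + k + 1 by ring]
    simp only [T] at h2 ⊢
    linear_combination (-1 : ZMod p) * h2 - y.coeff (j * p) * h3

/-- value of a solution of degree `< 2 p` -/
lemma value (h5 : 5 < p) (y : (ZMod p)[X]) (hy : LL y = 0) (hdeg : y.natDegree < 2 * p)
    {B : Type} [CommRing B] [Algebra (ZMod p) B] (x : B) :
    aeval x y = (algebraMap (ZMod p) B (y.coeff 0) + algebraMap (ZMod p) B (y.coeff p) * x ^ p) *
      ∑ k ∈ range p, algebraMap (ZMod p) B (T k) * x ^ k := by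
  rw [aeval_eq_sum_range' hdeg, two_mul, sum_range_add, add_mul, mul_sum, mul_assoc, mul_sum,
    mul_sum]
  congr 1
  · apply sum_congr rfl
    intro k hk
    have := solve h5 y hy 0 k (mem_range.mp hk)
    rw [zero_mul, zero_add] at this
    rw [this, Algebra.smul_def, map_mul, mul_assoc]
  · apply sum_congr rfl
    intro k hk
    have := solve h5 y hy 1 k (mem_range.mp hk)
    rw [one_mul] at this
    rw [this, Algebra.smul_def, map_mul, pow_add]
    ring

/-- the values of `T` through the shifted Legendre polynomial -/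
lemma T_eq (h5 : 5 < p) (r : ℕ) (hr : p = 3 * r + 2) : ∀ k < p,
    (T k : ZMod p) = (((shiftedLegendre r).coeff k : ℤ) : ZMod p) := by
  intro k
  induction k with
  | zero => intro _; rw [T, cf_zero, coeff_shiftedLegendre]; simp
  | succ k ih =>
    intro hk
    have h1 := ih (by omega)
    have h3 := cf_succ (fun i => (3 * (i : ZMod p) + 1) * (3 * (i : ZMod p) + 2)) 9 (nine_ne h5) k hk
    have h4 : ((k : ZMod p) + 1) ≠ 0 := by exact_mod_cast cast_ne (k + 1) hk (by omega)
    have h5' : 9 * ((k : ZMod p) + 1) ^ 2 ≠ 0 := mul_ne_zero (nine_ne h5) (pow_ne_zero _ h4)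
    apply mul_left_cancel₀ h5'
    simp only [T] at h1 ⊢
    rw [h3, h1]
    -- integer recursion
    have hrec : ((k : ℤ) + 1) ^ 2 * (shiftedLegendre r).coeff (k + 1)
        = - (((r : ℤ) - k) * ((r : ℤ) + k + 1)) * (shiftedLegendre r).coeff k := by
      rw [coeff_shiftedLegendre, coeff_shiftedLegendre]
      have e1 : ((k : ℤ) + 1) * (r.choose (k + 1) : ℤ) = ((r : ℤ) - k) * (r.choose k : ℤ) := by
        rcases Nat.lt_or_ge r k with h | h
        · rw [Nat.choose_eq_zero_of_lt h, Nat.choose_eq_zero_of_lt (by omega)]; simp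
        · have := Nat.choose_succ_right_eq r k
          have h' : ((r - k : ℕ) : ℤ) = (r : ℤ) - k := by push_cast [h]; ring
          rw [← h']
          have h2 : ((r.choose (k + 1) * (k + 1) : ℕ) : ℤ) = ((r.choose k * (r - k) : ℕ) : ℤ) := by
            rw [this]
          push_cast at h2 ⊢
          linear_combination h2
      have e2 : ((k : ℤ) + 1) * ((r + (k + 1)).choose r : ℤ) = ((r : ℤ) + k + 1) * ((r + k).choose r : ℤ) := by
        have h2 := Nat.add_one_mul_choose_eq (r + k) k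
        rw [← Nat.choose_symm_add] at h2
        rw [show r + k + 1 = r + (k + 1) by ring, ← Nat.choose_symm_add] at h2
        have h3 : (((r + (k + 1)) * (r + k).choose r : ℕ) : ℤ) = (((r + (k + 1)).choose r * (k + 1) : ℕ) : ℤ) := by
          rw [h2]
        push_cast at h3 ⊢
        linear_combination -h3
      rw [pow_succ (-1 : ℤ) k]
      linear_combination (-(-1 : ℤ) ^ k * ((k : ℤ) + 1) * ((r + (k + 1)).choose r : ℤ)) * e1
        - (-1 : ℤ) ^ k * ((r : ℤ) - k) * (r.choose k : ℤ) * e2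
    have hrec' := congrArg (Int.cast : ℤ → ZMod p) hrec
    push_cast at hrec'
    have h3r : 3 * (r : ZMod p) = -2 := by
      have : ((3 * r + 2 : ℕ) : ZMod p) = 0 := by rw [← hr]; simp
      push_cast at this
      linear_combination this
    linear_combination (-9 : ZMod p) * hrec' + ((shiftedLegendre r).coeff k : ZMod p) *
      (3 * (r : ZMod p) + 1) * h3r

lemma T_one (h5 : 5 < p) (r : ℕ) (hr : p = 3 * r + 2) :
    ∑ k ∈ range p, (T k : ZMod p) = -1 := by
  have h1 : ∑ k ∈ range p, (T k : ZMod p) = aeval (1 : ZMod p) (shiftedLegendre r) := by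
    rw [aeval_eq_sum_range' (n := p) (by rw [natDegree_shiftedLegendre]; omega)]
    apply sum_congr rfl
    intro k hk
    rw [T_eq h5 r hr k (mem_range.mp hk), one_pow, zsmul_eq_mul, mul_one]
  have hodd : Odd r := by
    rcases Nat.even_or_odd r with h | h
    · exfalso
      obtain ⟨s, hs⟩ := h
      have h2 : 2 ∣ p := ⟨3 * s + 1, by omega⟩
      have := (Nat.prime_dvd_prime_iff_eq Nat.prime_two hp.out).mp h2
      omega
    · exact h
  rw [h1, shiftedLegendre_eval_symm, sub_self, aeval_def, eval₂_eq_sum_range, sum_range_succ']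
  simp [coeff_shiftedLegendre, hodd.neg_one_pow]

lemma prod_three (k : ℕ) :
    (∏ i ∈ range k, ((3 * i + 1) * (3 * i + 2))) * (3 ^ k * k.factorial) = (3 * k).factorial := by
  induction k with
  | zero => simp
  | succ k ih =>
    rw [prod_range_succ, show 3 * (k + 1) = 3 * k + 1 + 1 + 1 by ring, Nat.factorial_succ,
      Nat.factorial_succ, Nat.factorial_succ, Nat.factorial_succ, ← ih]
    ring

lemma desc (k j : ℕ) (h : k + j < p) :
    (((p - 1 - k).descFactorial j : ℕ) : ZMod p) * ((k.factorial : ℕ) : ZMod p)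
      = (-1) ^ j * (((k + j).factorial : ℕ) : ZMod p) := by
  induction j with
  | zero => simp
  | succ j ih =>
    have h1 := ih (by omega)
    have h2 : ((p - 1 - k - j : ℕ) : ZMod p) = - ((k : ZMod p) + j + 1) := by
      have : ((p - 1 - k - j + (k + j + 1) : ℕ) : ZMod p) = 0 := by
        rw [show p - 1 - k - j + (k + j + 1) = p by omega]; simp
      push_cast at this
      linear_combination this
    rw [Nat.descFactorial_succ, show k + (j + 1) = k + j + 1 by ring, Nat.factorial_succ]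
    push_cast
    rw [h2]
    linear_combination (-((k : ZMod p) + j + 1)) * h1

lemma bc (h5 : 5 < p) (r : ℕ) (hr : p = 3 * r + 2) (k : ℕ) (hk : 3 * k + 1 ≤ p) :
    (Nat.choose (2 * k) k : ZMod p) * (Nat.choose (p - 1 - k) (2 * k) : ZMod p) * 3 ^ (p - 1 - 3 * k)
      = T k := by
  have hf := fact_ne (p := p) k (by omega)
  have h3 := three_ne h5
  have h27 : ((27 : ZMod p) ^ k * ((k.factorial : ℕ) : ZMod p) ^ 3) ≠ 0 := by
    have : (27 : ZMod p) = 3 * 3 * 3 := by norm_num
    rw [this]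
    exact mul_ne_zero (pow_ne_zero _ (mul_ne_zero (mul_ne_zero h3 h3) h3)) (pow_ne_zero _ hf)
  apply mul_right_cancel₀ h27
  -- right side
  have hT := cf_mul (fun i => (3 * (i : ZMod p) + 1) * (3 * (i : ZMod p) + 2)) 9 (nine_ne h5) k (by omega)
  have hP := congrArg (Nat.cast : ℕ → ZMod p) (prod_three k)
  push_cast at hP
  have e27 : (27 : ZMod p) ^ k = 9 ^ k * 3 ^ k := by rw [← mul_pow]; norm_num
  have hR : T k * ((27 : ZMod p) ^ k * ((k.factorial : ℕ) : ZMod p) ^ 3)
      = (((3 * k).factorial : ℕ) : ZMod p) := by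
    rw [← hP, ← hT, e27, T]; ring
  rw [hR]
  -- left side
  have hd := desc k (2 * k) (show k + 2 * k < p by omega)
  rw [Nat.descFactorial_eq_factorial_mul_choose, show k + 2 * k = 3 * k by ring,
    (even_two_mul k).neg_one_pow, one_mul] at hd
  have hc : k.factorial * k.factorial * Nat.choose (2 * k) k = (2 * k).factorial := by
    have := Nat.choose_mul_factorial_mul_factorial (show k ≤ 2 * k by omega)
    rw [show 2 * k - k = k by omega] at this
    rw [← this]; ring
  have hc' := congrArg (Nat.cast : ℕ → ZMod p) hc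
  push_cast at hc' hd
  have hpow : (3 : ZMod p) ^ (p - 1 - 3 * k) * 27 ^ k = 1 := by
    have : (27 : ZMod p) = 3 ^ 3 := by norm_num
    rw [this, ← pow_mul, ← pow_add, show p - 1 - 3 * k + 3 * k = p - 1 by omega]
    exact ZMod.pow_card_sub_one_eq_one h3
  calc _ = (((k.factorial : ℕ) : ZMod p) * ((k.factorial : ℕ) : ZMod p) * (Nat.choose (2 * k) k : ZMod p))
        * (Nat.choose (p - 1 - k) (2 * k) : ZMod p) * ((k.factorial : ℕ) : ZMod p)
        * ((3 : ZMod p) ^ (p - 1 - 3 * k) * 27 ^ k) := by ring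
    _ = _ := by rw [hc', hpow, mul_one, hd]

lemma bcoef_eq (h5 : 5 < p) (r : ℕ) (hr : p = 3 * r + 2) {B : Type} [CommRing B]
    [Algebra (ZMod p) B] (lam : B) :
    bcoef B lam p = ∑ k ∈ range p, algebraMap (ZMod p) B (T k) * lam ^ k := by
  rw [bcoef]
  apply sum_congr rfl
  intro k hk
  split_ifs with h
  · rw [← bc h5 r hr k h]
    simp only [map_mul, map_natCast, map_pow, map_ofNat]
  · rw [T, cf_eq_zero _ _ k r (by omega), map_zero, zero_mul]
    have : ((3 * r + 2 : ℕ) : ZMod p) = 0 := by rw [← hr]; simp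
    push_cast at this
    rw [this, mul_zero]

lemma natDegree_w : (w : (ZMod p)[X]).natDegree ≤ 2 := by
  have h4 : (4 : (ZMod p)[X]) = C 4 := (map_ofNat C 4).symm
  have : (w : (ZMod p)[X]) = C 4 * X - C 4 * X ^ 2 := by rw [w, h4]; ring
  rw [this]
  refine (natDegree_sub_le _ _).trans (max_le ?_ ?_)
  · have := natDegree_C_mul_X_pow_le (4 : ZMod p) 1
    rw [pow_one] at this
    omega
  · exact natDegree_C_mul_X_pow_le _ _

lemma natDegree_S (c : ℕ → ZMod p) :
    (∑ k ∈ range p, C (c k) * (w : (ZMod p)[X]) ^ k).natDegree ≤ 2 * (p - 1) := by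
  apply natDegree_sum_le_of_forall_le
  intro k hk
  have := mem_range.mp hk
  refine (natDegree_C_mul_le _ _).trans ((natDegree_pow_le).trans ?_)
  have h2 := natDegree_w (p := p)
  calc k * (w : (ZMod p)[X]).natDegree ≤ (p - 1) * 2 := Nat.mul_le_mul (by omega) h2
    _ = _ := by ring

lemma eval_S (c : ℕ → ZMod p) {B : Type} [CommRing B] [Algebra (ZMod p) B] (x : B) :
    aeval x (∑ k ∈ range p, C (c k) * (w : (ZMod p)[X]) ^ k)
      = ∑ k ∈ range p, algebraMap (ZMod p) B (c k) * (4 * x * (1 - x)) ^ k := by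
  rw [map_sum]
  apply sum_congr rfl
  intro k _
  rw [map_mul, aeval_C, map_pow, w]
  simp only [map_mul, map_sub, map_one, aeval_X, map_ofNat]
  rw [mul_assoc]

/-- the value of a sum with `x = 0` or `x = 1` -/
lemma eval_S_zero (hp1 : 0 < p) (c : ℕ → ZMod p) (hc : c 0 = 1) (x : ZMod p) (hx : x * (1 - x) = 0) :
    aeval x (∑ k ∈ range p, C (c k) * (w : (ZMod p)[X]) ^ k) = 1 := by
  rw [eval_S, sum_eq_single_of_mem 0 (mem_range.mpr hp1)]
  · simp [hc]
  · intro k _ hk
    rw [mul_assoc, hx, mul_zero, zero_pow hk, mul_zero]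

lemma LL_S (c q : ℕ → ZMod p) (n : ℕ) (hn : p = n + 1)
    (h : ∀ k < n, 18 * ((k : ZMod p) + 1) ^ 2 * c (k + 1) = q k * c k) (h0 : c n = 0)
    (hq : ∀ k, q k = (3 * (k : ZMod p) + 1) * (6 * (k : ZMod p) + 1)) :
    LL (∑ k ∈ range p, C (c k) * (w : (ZMod p)[X]) ^ k) = 0 := by
  rw [LL_sum]
  simp only [LL_C_mul, LL_w_pow]
  simp only [← hq]
  rw [show range p = range (n + 1) by rw [hn], tele c q n h, h0]
  simp

lemma LL_S2 (c q : ℕ → ZMod p) (n : ℕ) (hn : p = n + 1)
    (h : ∀ k < n, 18 * ((k : ZMod p) + 1) ^ 2 * c (k + 1) = q k * c k) (h0 : c n = 0)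
    (hq : ∀ k, q k = (3 * (k : ZMod p) + 2) * (6 * (k : ZMod p) + 5)) :
    LL ((1 - 2 * X) * ∑ k ∈ range p, C (c k) * (w : (ZMod p)[X]) ^ k) = 0 := by
  rw [mul_sum, LL_sum]
  have : ∀ k, LL ((1 - 2 * X) * (C (c k) * (w : (ZMod p)[X]) ^ k)) = (1 - 2 * X) * (C (c k) *
      (C (36 * (k : ZMod p) ^ 2) * w ^ (k - 1) - C (2 * (q k)) * w ^ k)) := by
    intro k
    rw [show (1 - 2 * X) * (C (c k) * (w : (ZMod p)[X]) ^ k) = C (c k) * ((1 - 2 * X) * w ^ k) by ring,
      LL_C_mul, LL_lin_w_pow, hq]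
    ring
  simp only [this]
  rw [← mul_sum, show range p = range (n + 1) by rw [hn], tele c q n h, h0]
  simp

theorem hTwo : H2Statement := by
  intro p hpp h5 hmod B _ hB lam a1 a2 h1 h2
  have : Fact p.Prime := ⟨hpp⟩
  let _ : Algebra (ZMod p) B := ZMod.algebra B p
  obtain ⟨r, hr⟩ : ∃ r, p = 3 * r + 2 := ⟨p / 3, by omega⟩
  have hr0 : ((3 * r + 2 : ℕ) : ZMod p) = 0 := by rw [← hr]; simp
  -- coefficients
  set q1 : ℕ → ZMod p := fun i => (3 * (i : ZMod p) + 1) * (6 * (i : ZMod p) + 1) with hq1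
  set q2 : ℕ → ZMod p := fun i => (3 * (i : ZMod p) + 2) * (6 * (i : ZMod p) + 5) with hq2
  have h18 := eighteen_ne (p := p) h5
  have key : ∀ (q : ℕ → ZMod p) (a : ℕ → B) (k : ℕ), k < p →
      a k * (18 ^ k * (k.factorial : B) ^ 2) = algebraMap (ZMod p) B (∏ i ∈ range k, q i) →
      a k = algebraMap (ZMod p) B (cf q 18 k) := by
    intro q a k hk hak
    have hu : IsUnit ((18 : ZMod p) ^ k * ((k.factorial : ℕ) : ZMod p) ^ 2) :=
      IsUnit.mk0 _ (mul_ne_zero (pow_ne_zero _ h18) (pow_ne_zero _ (fact_ne k hk)))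
    have hu' := hu.map (algebraMap (ZMod p) B)
    apply hu'.mul_right_cancel
    rw [← map_mul, cf_mul q 18 h18 k hk, ← hak]
    simp only [map_mul, map_natCast, map_pow, map_ofNat]
  have ha1 : ∀ k < p, a1 k = algebraMap (ZMod p) B (cf q1 18 k) := by
    intro k hk
    apply key q1 a1 k hk
    rw [h1 k hk, map_prod]
    apply prod_congr rfl
    intro i _
    simp only [hq1, map_mul, map_add, map_natCast, map_one, map_ofNat]
  have ha2 : ∀ k < p, a2 k = algebraMap (ZMod p) B (cf q2 18 k) := by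
    intro k hk
    apply key q2 a2 k hk
    rw [h2 k hk, map_prod]
    apply prod_congr rfl
    intro i _
    simp only [hq2, map_mul, map_add, map_natCast, map_ofNat]
  have hn : p = (p - 1) + 1 := by omega
  have hp0 : 0 < p := by omega
  -- the first sum
  have hL1 : LL (∑ k ∈ range p, C (cf q1 18 k) * (w : (ZMod p)[X]) ^ k) = 0 := by
    apply LL_S _ q1 (p - 1) hn
    · intro k hk
      exact cf_succ q1 18 h18 k (by omega)
    · -- 3 i + 1 = 2 p
      apply cf_eq_zero q1 18 (p - 1) (2 * r + 1) (by omega)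
      have : ((3 * (2 * r + 1) + 1 : ℕ) : ZMod p) = 0 := by
        rw [show 3 * (2 * r + 1) + 1 = 2 * (3 * r + 2) by ring, Nat.cast_mul, hr0, mul_zero]
      simp only [hq1]
      push_cast at this ⊢
      rw [this, zero_mul]
    · intro k; rfl
  have hL2 : LL ((1 - 2 * X) * ∑ k ∈ range p, C (cf q2 18 k) * (w : (ZMod p)[X]) ^ k) = 0 := by
    apply LL_S2 _ q2 (p - 1) hn
    · intro k hk
      exact cf_succ q2 18 h18 k (by omega)
    · apply cf_eq_zero q2 18 (p - 1) r (by omega)
      simp only [hq2]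
      push_cast at hr0
      rw [hr0, zero_mul]
    · intro k; rfl
  have hT1 := T_one h5 r hr
  have hb := bcoef_eq h5 r hr lam
  -- degrees
  have hd1 := natDegree_S (cf q1 18)
  have hd2 : ((1 - 2 * X) * ∑ k ∈ range p, C (cf q2 18 k) * (w : (ZMod p)[X]) ^ k).natDegree < 2 * p := by
    have h2 : ((1 - 2 * X) : (ZMod p)[X]).natDegree ≤ 1 := by
      have e2 : (2 : (ZMod p)[X]) = C 2 := (map_ofNat C 2).symm
      rw [e2]
      have := natDegree_C_mul_X_pow_le (2 : ZMod p) 1
      rw [pow_one] at this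
      exact (natDegree_sub_le _ _).trans (max_le (by simp) this)
    have := natDegree_S (cf q2 18)
    have h3 := natDegree_mul_le (p := (1 - 2 * X : (ZMod p)[X])) (q := ∑ k ∈ range p, C (cf q2 18 k) * (w : (ZMod p)[X]) ^ k)
    omega
  constructor
  · -- first identity
    set y := ∑ k ∈ range p, C (cf q1 18 k) * (w : (ZMod p)[X]) ^ k with hy
    have v := value h5 y hL1 (by omega) lam
    have y0 : y.coeff 0 = 1 := by
      rw [coeff_zero_eq_aeval_zero]
      exact eval_S_zero hp0 _ (cf_zero _ _) 0 (by ring)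
    have v1 := value h5 y hL1 (by omega) (1 : ZMod p)
    have y1 : aeval (1 : ZMod p) y = 1 := eval_S_zero hp0 _ (cf_zero _ _) 1 (by ring)
    have yp : y.coeff p = -2 := by
      rw [y1, y0] at v1
      simp only [one_pow, mul_one, Algebra.algebraMap_self, RingHom.id_apply] at v1
      rw [hT1] at v1
      linear_combination v1
    rw [y0, yp, ← hb, hy, eval_S] at v
    rw [show (1 - 2 * lam ^ p) * bcoef B lam p = (algebraMap (ZMod p) B 1 + algebraMap (ZMod p) B (-2) * lam ^ p) * bcoef B lam p by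
      simp only [map_one, map_neg, map_ofNat]; ring, ← v]
    apply sum_congr rfl
    intro k hk
    rw [ha1 k (mem_range.mp hk)]
  · set y := (1 - 2 * X) * ∑ k ∈ range p, C (cf q2 18 k) * (w : (ZMod p)[X]) ^ k with hy
    have v := value h5 y hL2 hd2 lam
    have y0 : y.coeff 0 = 1 := by
      rw [coeff_zero_eq_aeval_zero, hy, map_mul, eval_S_zero hp0 _ (cf_zero _ _) 0 (by ring)]
      simp
    have v1 := value h5 y hL2 hd2 (1 : ZMod p)
    have y1 : aeval (1 : ZMod p) y = -1 := by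
      rw [hy, map_mul, eval_S_zero hp0 _ (cf_zero _ _) 1 (by ring)]
      simp only [map_sub, map_mul, map_one, aeval_X, map_ofNat]
      norm_num
    have yp : y.coeff p = 0 := by
      rw [y1, y0] at v1
      simp only [one_pow, mul_one, Algebra.algebraMap_self, RingHom.id_apply] at v1
      rw [hT1] at v1
      linear_combination v1
    rw [y0, yp, ← hb, hy, map_mul, eval_S] at v
    simp only [map_sub, map_mul, map_one, aeval_X, map_ofNat, map_zero, zero_mul, add_zero, one_mul] at v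
    rw [← v]
    congr 1
    apply sum_congr rfl
    intro k hk
    rw [ha2 k (mem_range.mp hk)]

end Pool.Agent.Lib.MP_748296_nt.H5
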