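import Pool.Agent.Lib.MP_748296_nt.Interfaces

/-!
# MP_748296_nt : the differential operator, in characteristic `p` (helper5)
-/

namespace Pool.Agent.Lib.MP_748296_nt.H5

open Finset Polynomial

variable {K : Type} [Field K]

/-- the hypergeometric operator `9 x (1 - x) y'' + 9 (1 - 2 x) y' - 2 y`. -/
noncomputable def LL (y : K[X]) : K[X] :=
  9 * (X * (1 - X)) * derivative (derivative y) + 9 * (1 - 2 * X) * derivative y - 2 * y

lemma LL_add (y z : K[X]) : LL (y + z) = LL y + LL z := by
  simp only [LL, derivative_add]; ring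

lemma LL_C_mul (c : K) (y : K[X]) : LL (C c * y) = C c * LL y := by
  simp only [LL, derivative_C_mul]; ring

lemma LL_zero : LL (0 : K[X]) = 0 := by simp [LL]

lemma LL_sum {ι : Type} (s : Finset ι) (f : ι → K[X]) : LL (∑ i ∈ s, f i) = ∑ i ∈ s, LL (f i) := by
  classical
  induction s using Finset.induction_on with
  | empty => simp [LL_zero]
  | insert a s ha ih => rw [sum_insert ha, sum_insert ha, LL_add, ih]

lemma coeff_LL (y : K[X]) (k : ℕ) : (LL y).coeff k =
    9 * ((k : K) + 1) ^ 2 * y.coeff (k + 1) - (3 * (k : K) + 1) * (3 * (k : K) + 2) * y.coeff k := by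
  have h9 : (9 : K[X]) = C 9 := (map_ofNat C 9).symm
  have h2 : (2 : K[X]) = C 2 := (map_ofNat C 2).symm
  have e : LL y = C 9 * (X * derivative (derivative y)) - C 9 * (X * (X * derivative (derivative y)))
      + C 9 * derivative y - C 18 * (X * derivative y) - C 2 * y := by
    have h18 : (C 18 : K[X]) = 18 := map_ofNat C 18
    rw [LL, ← h9, ← h2, h18]; ring
  rw [e]
  simp only [coeff_add, coeff_sub, coeff_C_mul]
  rcases k with _ | _ | k
  · simp only [coeff_X_mul_zero, coeff_derivative]
    push_cast; ring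
  · simp only [coeff_X_mul, coeff_X_mul_zero, coeff_derivative, zero_add]
    push_cast; ring
  · simp only [coeff_X_mul, coeff_derivative]
    push_cast; ring

/-- `w = 4 x (1 - x)` -/
noncomputable def w : K[X] := 4 * (X * (1 - X))

lemma derivative_w : derivative (w : K[X]) = 4 * (1 - 2 * X) := by
  have h4 : (4 : K[X]) = C 4 := (map_ofNat C 4).symm
  rw [w, h4, derivative_C_mul, derivative_mul]
  simp only [derivative_X, derivative_sub, derivative_one]
  ring

lemma derivative_lin : derivative (1 - 2 * X : K[X]) = -2 := by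
  have h2 : (2 : K[X]) = C 2 := (map_ofNat C 2).symm
  rw [h2, derivative_sub, derivative_C_mul, derivative_one, derivative_X]
  simp

lemma derivative_w2 : derivative (4 * (1 - 2 * X) : K[X]) = -8 := by
  have h4 : (4 : K[X]) = C 4 := (map_ofNat C 4).symm
  rw [h4, derivative_C_mul, derivative_lin, ← h4]; ring

lemma LL_w_pow (k : ℕ) : LL ((w : K[X]) ^ k) =
    C (36 * (k : K) ^ 2) * w ^ (k - 1) - C (2 * ((3 * (k : K) + 1) * (6 * (k : K) + 1))) * w ^ k := by
  rcases k with _ | _ | k
  · simp [LL]
    exact (map_ofNat C 2).symm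
  · have h2 : (2 : K[X]) = C 2 := (map_ofNat C 2).symm
    simp only [zero_add, pow_one, LL, derivative_w, derivative_w2, Nat.sub_self, pow_zero, mul_one,
      Nat.cast_one]
    simp only [map_mul, map_add, map_pow, map_one, map_ofNat]
    rw [w]; ring
  · have h1 : derivative ((w : K[X]) ^ (k + 1 + 1)) =
        (C ((k : K) + 1 + 1)) * w ^ (k + 1) * (4 * (1 - 2 * X)) := by
      rw [derivative_pow_succ, derivative_w]; simp
    have h2 : derivative ((w : K[X]) ^ (k + 1)) =
        (C ((k : K) + 1)) * w ^ k * (4 * (1 - 2 * X)) := by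
      rw [derivative_pow_succ, derivative_w]
    have h3 : derivative (derivative ((w : K[X]) ^ (k + 1 + 1))) =
        C ((k : K) + 1 + 1) * ((C ((k : K) + 1)) * w ^ k * (4 * (1 - 2 * X)) * (4 * (1 - 2 * X)) +
          w ^ (k + 1) * (-8)) := by
      rw [h1, mul_assoc, derivative_C_mul, derivative_mul, h2, derivative_w2]
    rw [LL, h3, h1]
    simp only [map_mul, map_add, map_pow, map_one, map_ofNat, Nat.add_sub_cancel, Nat.cast_add,
      Nat.cast_one, pow_succ (w : K[X])]
    generalize (w : K[X]) ^ k = W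
    rw [w]
    ring

lemma LL_lin_w_pow (k : ℕ) : LL ((1 - 2 * X) * (w : K[X]) ^ k) =
    (1 - 2 * X) * (C (36 * (k : K) ^ 2) * w ^ (k - 1)
      - C (2 * ((3 * (k : K) + 2) * (6 * (k : K) + 5))) * w ^ k) := by
  rcases k with _ | _ | k
  · simp only [pow_zero, mul_one, LL, derivative_lin]
    have : derivative (-2 : K[X]) = 0 := by
      have h2 : (-2 : K[X]) = C (-2) := by simp only [map_neg, map_ofNat]
      rw [h2, derivative_C]
    rw [this]
    simp only [map_mul, map_add, map_pow, map_one, map_ofNat, Nat.cast_zero, map_zero]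
    ring
  · have h0 : derivative (-2 * w : K[X]) = -2 * (4 * (1 - 2 * X)) := by
      have h2 : (-2 : K[X]) = C (-2) := by simp only [map_neg, map_ofNat]
      rw [h2, derivative_C_mul, derivative_w]
    have h1 : derivative ((1 - 2 * X) * (4 * (1 - 2 * X)) : K[X]) = -2 * (4 * (1 - 2 * X)) + (1 - 2 * X) * (-8) := by
      rw [derivative_mul, derivative_lin, derivative_w2]
    simp only [zero_add, pow_one, LL, derivative_mul (f := (1 - 2 * X : K[X])) (g := w),
      derivative_lin, derivative_w, derivative_add, h0, h1, Nat.sub_self, pow_zero, mul_one,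
      Nat.cast_one]
    simp only [map_mul, map_add, map_pow, map_one, map_ofNat]
    rw [w]; ring
  · have h1 : derivative ((w : K[X]) ^ (k + 1 + 1)) =
        (C ((k : K) + 1 + 1)) * (w ^ (k + 1) * (4 * (1 - 2 * X))) := by
      rw [derivative_pow_succ, derivative_w, mul_assoc]; simp
    have h2 : derivative ((w : K[X]) ^ (k + 1)) =
        (C ((k : K) + 1)) * w ^ k * (4 * (1 - 2 * X)) := by
      rw [derivative_pow_succ, derivative_w]
    have h3 : derivative ((1 - 2 * X) * (w : K[X]) ^ (k + 1 + 1)) =
        C (-2) * w ^ (k + 1 + 1) + C ((k : K) + 1 + 1) * ((1 - 2 * X) * (w ^ (k + 1) * (4 * (1 - 2 * X)))) := by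
      rw [derivative_mul, derivative_lin, h1]
      simp only [map_neg, map_ofNat]; ring
    have h4 : derivative (derivative ((1 - 2 * X) * (w : K[X]) ^ (k + 1 + 1))) =
        C (-2) * (C ((k : K) + 1 + 1) * (w ^ (k + 1) * (4 * (1 - 2 * X)))) +
        C ((k : K) + 1 + 1) * (-2 * (w ^ (k + 1) * (4 * (1 - 2 * X))) + (1 - 2 * X) *
          ((C ((k : K) + 1)) * w ^ k * (4 * (1 - 2 * X)) * (4 * (1 - 2 * X)) + w ^ (k + 1) * (-8))) := by
      rw [h3, derivative_add, derivative_C_mul, derivative_C_mul, h1, derivative_mul (f := (1 - 2 * X : K[X])),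
        derivative_lin, derivative_mul, h2, derivative_w2]
    rw [LL, h4, h3]
    simp only [map_mul, map_add, map_pow, map_one, map_ofNat, map_neg, Nat.add_sub_cancel, Nat.cast_add,
      Nat.cast_one, pow_succ (w : K[X])]
    generalize (w : K[X]) ^ k = W
    rw [w]
    ring

/-- telescoping -/
lemma tele (c q : ℕ → K) (n : ℕ)
    (h : ∀ k < n, 18 * ((k : K) + 1) ^ 2 * c (k + 1) = q k * c k) :
    ∑ k ∈ range (n + 1), C (c k) * (C (36 * (k : K) ^ 2) * (w : K[X]) ^ (k - 1) - C (2 * q k) * w ^ k)
      = - C (2 * (q n * c n)) * w ^ n := by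
  induction n with
  | zero => simp only [zero_add, range_one, sum_singleton, Nat.cast_zero, pow_zero, Nat.zero_sub, mul_one]
            simp only [map_mul, map_pow, map_ofNat, map_zero]; ring
  | succ n ih =>
    rw [sum_range_succ, ih (fun k hk => h k (by omega))]
    have h1 := h n (by omega)
    have h2 : (C (18 * ((n : K) + 1) ^ 2 * c (n + 1)) : K[X]) = C (q n * c n) := by rw [h1]
    simp only [map_mul, map_pow, map_ofNat, map_add, map_one] at h2
    simp only [map_mul, map_pow, map_ofNat, map_add, map_one, Nat.cast_add, Nat.cast_one, Nat.add_sub_cancel]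
    linear_combination (2 * (w : K[X]) ^ n) * h2

end Pool.Agent.Lib.MP_748296_nt.H5
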